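import Pool.Agent.helper12.TZ.Spec

set_option autoImplicit false

namespace Pool.Agent.TZ

open Pool.Agent.helper58.DC Pool.Agent.DI Pool.Agent.GR Pool.Agent.OB

section

variable {G : Type} [Group G]

theorem FRE_conj {u c b y : G} (hc : c * u = y⁻¹ * u * y) (h1 : u * b = b * u) (h2 : u * c = c * u)
    (h3 : b * c = c * b) : y * b * u = u * (y * b * c⁻¹) := by
  have e1 : u * y = y * (c * u) := by
    rw [hc]
    group
  calc y * b * u = y * b * c * c⁻¹ * u := by group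
    _ = y * (b * c) * (c⁻¹ * u) := by group
    _ = y * (c * b) * (u * c⁻¹) := by
        rw [h3]
        have : c⁻¹ * u = u * c⁻¹ := by
          rw [inv_mul_eq_iff_eq_mul, ← mul_assoc, ← h2, mul_assoc, mul_inv_cancel, mul_one]
        rw [this]
    _ = y * c * (b * u) * c⁻¹ := by group
    _ = y * c * (u * b) * c⁻¹ := by rw [h1]
    _ = y * (c * u) * b * c⁻¹ := by group
    _ = (u * y) * b * c⁻¹ := by rw [← e1]
    _ = u * (y * b * c⁻¹) := by group

theorem FRE_conj2 {u c d yb : G} (h : yb * u = u * (yb * c⁻¹)) (hd : d * yb = yb * d) (hdc : d * c = c * d) :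
    u * d * u⁻¹ * yb = yb * (u * d * u⁻¹) := by
  have h1 : u⁻¹ * yb = yb * c⁻¹ * u⁻¹ := by
    rw [inv_mul_eq_iff_eq_mul]
    calc yb = yb * u * u⁻¹ := by group
      _ = u * (yb * c⁻¹) * u⁻¹ := by rw [h]
      _ = u * (yb * c⁻¹ * u⁻¹) := by group
  have hdc' : d * c⁻¹ = c⁻¹ * d := by
    have h0 : c⁻¹ * (c * d) * c⁻¹ = c⁻¹ * (d * c) * c⁻¹ := by rw [hdc]
    calc d * c⁻¹ = c⁻¹ * (c * d) * c⁻¹ := by group
      _ = c⁻¹ * (d * c) * c⁻¹ := h0
      _ = c⁻¹ * d := by group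
  calc u * d * u⁻¹ * yb = u * d * (u⁻¹ * yb) := by group
    _ = u * d * (yb * c⁻¹ * u⁻¹) := by rw [h1]
    _ = u * (d * yb) * c⁻¹ * u⁻¹ := by group
    _ = u * (yb * d) * c⁻¹ * u⁻¹ := by rw [hd]
    _ = u * yb * (d * c⁻¹) * u⁻¹ := by group
    _ = u * yb * (c⁻¹ * d) * u⁻¹ := by rw [hdc']
    _ = u * (yb * c⁻¹) * d * u⁻¹ := by group
    _ = yb * u * d * u⁻¹ := by rw [← h]
    _ = yb * (u * d * u⁻¹) := by group

/-- a fixed point -/
theorem FRE_fix [Finite G] (p : ℕ) [Fact p.Prime] (V S : Subgroup G) (hV : IsPGroup p V) (hS : IsPGroup p S)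
    (hSne : S ≠ ⊥) (hn : ∀ u ∈ V, ∀ d ∈ S, u * d * u⁻¹ ∈ S) :
    ∃ d ∈ S, d ≠ 1 ∧ ∀ u ∈ V, d * u = u * d := by
  let act : MulAction V S := {
    smul := fun u d => ⟨(u : G) * d * (u : G)⁻¹, hn u u.2 d d.2⟩
    one_smul := fun d => by
      apply Subtype.ext
      show (1 : G) * d * (1 : G)⁻¹ = d
      group
    mul_smul := fun u v d => by
      apply Subtype.ext
      show ((u * v : V) : G) * d * ((u * v : V) : G)⁻¹ = u * (v * d * (v : G)⁻¹) * (u : G)⁻¹
      rw [Subgroup.coe_mul]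
      group }
  have hsm : ∀ (u : V) (d : S), ((u • d : S) : G) = (u : G) * d * (u : G)⁻¹ := fun _ _ => rfl
  have hdvd : p ∣ Nat.card S := by
    obtain ⟨n, hn⟩ := IsPGroup.iff_card.1 hS
    rcases Nat.eq_zero_or_pos n with h0 | h0
    · exfalso
      rw [h0, pow_zero] at hn
      exact hSne ((Subgroup.card_eq_one).1 hn)
    · rw [hn]
      exact dvd_pow_self _ h0.ne'
  have h1 : (1 : S) ∈ MulAction.fixedPoints V S := by
    rw [MulAction.mem_fixedPoints]
    intro u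
    apply Subtype.ext
    rw [hsm]
    simp
  obtain ⟨d, hd, hne⟩ := hV.exists_fixed_point_of_prime_dvd_card_of_fixed_point S hdvd h1
  refine ⟨d, d.2, fun h => hne (Subtype.ext h.symm), fun u hu => ?_⟩
  have h2 := congrArg (fun z : S => (z : G)) (MulAction.mem_fixedPoints.1 hd ⟨u, hu⟩)
  simp only [hsm] at h2
  rw [mul_inv_eq_iff_eq_mul] at h2
  exact h2.symm

end

theorem FRE (hSTB : STB_stmt) : FRE_stmt := by
  intro G _ _ p _ s y H K hH hK hCH hCK hFr hUK b hb d hd hd1 hdy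
  obtain ⟨⟨N, hN⟩, hUH, hab, -⟩ := hSTB G s y H hCH hFr
  have hle : ∀ j, Ul s y H j ≤ Ui s y H := fun j => le_iSup (Ul s y H) j
  have key : ∀ j, ∃ d' ∈ K, d' ≠ 1 ∧ d' * (y * b) = y * b * d' ∧ ∀ u ∈ Ul s y H j, d' * u = u * d' := by
    intro j
    induction j with
    | zero =>
      refine ⟨d, hd, hd1, hdy, fun u hu => ?_⟩
      have : u = 1 := by
        simpa [Ul] using hu
      rw [this]
      simp
    | succ j ih =>
      obtain ⟨d1, hd1K, hd1ne, hd1y, hd1U⟩ := ih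
      set S : Subgroup G := K ⊓ Subgroup.centralizer {y * b} ⊓ Subgroup.centralizer (Ul s y H j : Set G) with hSdef
      have hSmem : ∀ x, x ∈ S ↔ x ∈ K ∧ x * (y * b) = y * b * x ∧ ∀ u ∈ Ul s y H j, x * u = u * x := by
        intro x
        rw [hSdef, Subgroup.mem_inf, Subgroup.mem_inf, Subgroup.mem_centralizer_singleton_iff,
          Subgroup.mem_centralizer_iff]
        constructor
        · rintro ⟨⟨h1, h2⟩, h3⟩
          exact ⟨h1, h2, fun u hu => (h3 u hu).symm⟩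
        · rintro ⟨h1, h2, h3⟩
          exact ⟨⟨h1, h2⟩, fun u hu => (h3 u hu).symm⟩
      have hSK : S ≤ K := fun x hx => ((hSmem x).1 hx).1
      have hSne : S ≠ ⊥ := by
        intro h
        have : d1 ∈ S := (hSmem d1).2 ⟨hd1K, hd1y, hd1U⟩
        rw [h, Subgroup.mem_bot] at this
        exact hd1ne this
      have hVH : Ul s y H (j + 1) ≤ H := (hle (j + 1)).trans hUH
      obtain ⟨d2, hd2S, hd2ne, hd2V⟩ := FRE_fix p (Ul s y H (j + 1)) S (hH.to_le hVH) (hK.to_le hSK) hSne (by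
        intro u hu x hx
        obtain ⟨hxK, hxy, hxU⟩ := (hSmem x).1 hx
        have huU : u ∈ Ui s y H := hle (j + 1) hu
        have hu' : u ∈ H ∧ (∀ v ∈ Ul s y H j, u * v = v * u) ∧ u * s = s * u ∧
          y⁻¹ * u * y * u⁻¹ ∈ Ul s y H j ⊔ Subgroup.zpowers s := hu
        obtain ⟨-, hu1, hu2, hu3⟩ := hu'
        set c := y⁻¹ * u * y * u⁻¹ with hc
        have hcu : c * u = y⁻¹ * u * y := by rw [hc]; group
        have hcB : c ∈ Bi s y H := (sup_le_sup_right (hle j) _) hu3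
        have huB : u ∈ Bi s y H := (le_sup_left : Ui s y H ≤ Ui s y H ⊔ Subgroup.zpowers s) huU
        have e1 := FRE_conj hcu (hab u huB b hb) (hab u huB c hcB) (hab b hb c hcB)
        have e2 : x * c = c * x := nx_comm hxU (hCK x hxK) c hu3
        refine (hSmem _).2 ⟨K.mul_mem (K.mul_mem (hUK huU) hxK) (K.inv_mem (hUK huU)),
          FRE_conj2 e1 hxy e2, fun v hv => ?_⟩
        have h1 := hu1 v hv
        have h2 := hxU v hv
        have h3 : u⁻¹ * v = v * u⁻¹ := by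
          rw [inv_mul_eq_iff_eq_mul, ← mul_assoc, h1, mul_assoc, mul_inv_cancel, mul_one]
        rw [mul_assoc (u * x), h3, ← mul_assoc, mul_assoc u x v, h2, ← mul_assoc, h1]
        simp only [mul_assoc])
      exact ⟨d2, hSK hd2S, hd2ne, ((hSmem d2).1 hd2S).2.1, hd2V⟩
  obtain ⟨d', h1, h2, h3, h4⟩ := key N
  refine ⟨d', h1, h2, h3, fun u hu => h4 u ?_⟩
  rw [hN N le_rfl]
  exact hu

end Pool.Agent.TZ
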