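import Pool.Agent.helper12.TZ.SpecI

set_option autoImplicit false

namespace Pool.Agent.TZ

open Pool.Agent.helper58.DC Pool.Agent.DI Pool.Agent.GR Pool.Agent.OB

theorem IQA_card {α β : Type} (R : Finset β) (S : α → Prop) (T : β → α → Prop)
    (hfin : Finite {a // S a}) (h : ∀ a, S a → ∃! b, b ∈ R ∧ T b a)
    (h' : ∀ b ∈ R, ∀ a, T b a → S a) :
    Nat.card {a // S a} = ∑ b ∈ R, Nat.card {a // T b a} := by
  classical
  have e : {a // S a} ≃ Σ b : R, {a // T b.1 a} :=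
    { toFun := fun a => ⟨⟨(h a.1 a.2).choose, (h a.1 a.2).choose_spec.1.1⟩,
        ⟨a.1, (h a.1 a.2).choose_spec.1.2⟩⟩
      invFun := fun x => ⟨x.2.1, h' x.1.1 x.1.2 x.2.1 x.2.2⟩
      left_inv := fun a => rfl
      right_inv := fun x => by
        obtain ⟨⟨b, hb⟩, ⟨a, ha⟩⟩ := x
        have hS := h' b hb a ha
        have h1 : (h a hS).choose = b :=
          ((h a hS).choose_spec.2 b ⟨hb, ha⟩).symm
        refine Sigma.ext (Subtype.ext h1) ?_
        simp only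
        refine (Subtype.heq_iff_coe_eq ?_).2 rfl
        intro x
        rw [h1] }
  have hfin' : ∀ b : R, Finite {a // T b.1 a} := fun b =>
    Finite.of_injective (fun a => (⟨a.1, h' b.1 b.2 a.1 a.2⟩ : {a // S a}))
      (fun a a' haa => by
        have := congrArg Subtype.val haa
        exact Subtype.ext this)
  rw [Nat.card_congr e, Nat.card_sigma]
  exact Finset.sum_coe_sort R (fun b => Nat.card {a // T b a})

theorem IQA (hB2 : B2_stmt) (hC1 : C1_stmt) (hC9 : C9_stmt) (hC15 : C15_stmt) (hD1 : D1_stmt) :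
    IQA_stmt := by
  classical
  intro Γ _ _ p _ M hM hp G' τ
  obtain ⟨R, hR1, hR2⟩ := hC15 Γ M
  have hC := hC1 p M hM hp
  refine ⟨R.filter (fun b => Cov M G' τ b), fun b hb => ?_, fun d => ?_⟩
  · rw [Finset.mem_filter] at hb
    exact ⟨hR1 b hb.1, hb.2⟩
  have key : ∀ C : Finset (Subgroup Γ), IsRadical p C →
      gfun p M G' τ d (nrm C) = ∑ b ∈ R.filter (fun b => Cov M G' τ b),
        (Nat.card (nrm C) : ℤ) * kC (trivE Γ) p M b d ⊤ C := by
    intro C hCr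
    unfold gfun
    have h1 : Nat.card {φ : Γ → ℂ // φ ∈ IrrOn (nrm C) ∧ Defect p (nrm C) φ d ∧ Cov M G' τ φ} =
        ∑ b ∈ R.filter (fun b => Cov M G' τ b), kC (trivE Γ) p M b d ⊤ C := by
      unfold kC
      refine IQA_card _ _ (fun b φ => φ ∈ IrrOn (nrm C) ∧ Defect p (nrm C) φ d ∧ Induces M φ b ∧
        ((trivE Γ).stab C φ).map (trivE Γ).proj = ⊤) ?_ ?_ ?_
      · refine Set.Finite.to_subtype (s := {φ : Γ → ℂ | φ ∈ IrrOn (nrm C) ∧
          Defect p (nrm C) φ d ∧ Cov M G' τ φ}) ?_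
        exact (hB2 Γ (nrm C)).1.subset fun φ hφ => hφ.1
      · rintro φ ⟨h1, h2, h3⟩
        obtain ⟨b, ⟨hb1, hb2⟩, hb3⟩ := hR2 φ (hC9 Γ p M hM hp C hCr φ h1)
        refine ⟨b, ⟨?_, h1, h2, hb2, Subsingleton.elim _ _⟩, ?_⟩
        · rw [Finset.mem_filter]
          exact ⟨hb1, fun g hg => hC.2.2.1 _ _ _ (hC.2.1 _ _ (hb2 g)) (h3 g hg)⟩
        · rintro b' ⟨hb'1, -, -, hb'2, -⟩
          exact hb3 b' ⟨(Finset.mem_filter.1 hb'1).1, hb'2⟩
      · rintro b hb φ ⟨h1, h2, h3, -⟩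
        exact ⟨h1, h2, fun g hg => hC.2.2.1 _ _ _ (h3 g) ((Finset.mem_filter.1 hb).2 g hg)⟩
    rw [h1]
    push_cast
    rw [Finset.mul_sum]
  have hfinC : {C : Finset (Subgroup Γ) | IsRadical p C}.Finite := Set.toFinite _
  calc ∑ᶠ C ∈ {C : Finset (Subgroup Γ) | IsRadical p C},
        (-1) ^ (C.card + 1) * gfun p M G' τ d (nrm C)
      = ∑ᶠ C ∈ {C : Finset (Subgroup Γ) | IsRadical p C}, ∑ b ∈ R.filter (fun b => Cov M G' τ b),
          (-1) ^ (C.card + 1) * ((Nat.card (nrm C) : ℤ) * kC (trivE Γ) p M b d ⊤ C) := by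
        refine finsum_mem_congr rfl fun C hC => ?_
        rw [key C hC, Finset.mul_sum]
    _ = ∑ b ∈ R.filter (fun b => Cov M G' τ b), ∑ᶠ C ∈ {C : Finset (Subgroup Γ) | IsRadical p C},
          (-1) ^ (C.card + 1) * ((Nat.card (nrm C) : ℤ) * kC (trivE Γ) p M b d ⊤ C) := by
        rw [finsum_mem_eq_finite_toFinset_sum _ hfinC, Finset.sum_comm]
        refine Finset.sum_congr rfl fun b _ => ?_
        rw [finsum_mem_eq_finite_toFinset_sum _ hfinC]
    _ = _ := by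
        refine Finset.sum_congr rfl fun b hb => ?_
        rw [hD1 Γ Γ Unit (trivE Γ) p M b (hR1 b (Finset.mem_filter.1 hb).1) d ⊤]

end Pool.Agent.TZ
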