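import Pool.Agent.helper12.TZ.SpecI

set_option autoImplicit false

namespace Pool.Agent.TZ

open Pool.Agent.helper58.DC Pool.Agent.DI Pool.Agent.GR Pool.Agent.OB

theorem IRL (hIQR : IQR_stmt) (hICV : ICV_stmt) (hTOA : TOA_stmt) (hFN : FN_stmt) : IRL_stmt := by
  classical
  intro p M hS G E A _ _ _ _ _ X hcyc hpA hOp χ hχ hst D x hdef z hz hzc hzn
  have hp : Fact p.Prime := ⟨hS.pr⟩
  have hA : Finite A := Finite.of_surjective _ X.proj_surjective
  have hFt : Fintype (Subgroup A) := Fintype.ofFinite _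
  obtain ⟨R, hR1, hR2⟩ := hIQR G E A X p M hS.max hS.mem hcyc hpA hOp χ hχ hst
  -- a finite set of all relevant `d`
  have hfin1 : (⋃ U : Subgroup A, {d : ℤ | altSum X p M χ d U ≠ 0}).Finite :=
    Set.finite_iUnion fun U => hFN G E A X p M χ U
  have hfin2 : (⋃ b ∈ R, {d : ℤ | altSum (trivE E) p M b d ⊤ ≠ 0}).Finite :=
    Set.Finite.biUnion R.finite_toSet fun b _ => hFN E E Unit (trivE E) p M b ⊤
  set s : Finset ℤ := (hfin1.union hfin2).toFinset with hs
  have h1 : ∀ U : Subgroup A, ∑ᶠ d : ℤ, altSum X p M χ d U = ∑ d ∈ s, altSum X p M χ d U := by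
    intro U
    refine finsum_eq_sum_of_support_subset _ fun d hd => ?_
    rw [hs, Set.Finite.coe_toFinset]
    exact Or.inl (Set.mem_iUnion.2 ⟨U, hd⟩)
  have h2 : ∀ b ∈ R, aB p M b = ∑ d ∈ s, altSum (trivE E) p M b d ⊤ := by
    intro b hb
    rw [hTOA E E Unit (trivE E) p M b]
    have h3 : ∀ d : ℤ, ∑ᶠ V : Subgroup Unit, altSum (trivE E) p M b d V = altSum (trivE E) p M b d ⊤ := by
      intro d
      have h4 : ∀ V : Subgroup Unit, altSum (trivE E) p M b d V = altSum (trivE E) p M b d ⊤ := fun V => by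
        rw [Subsingleton.elim V ⊤]
      rw [finsum_congr h4]
      exact finsum_unique _
    rw [finsum_congr h3]
    refine finsum_eq_sum_of_support_subset _ fun d hd => ?_
    rw [hs, Set.Finite.coe_toFinset]
    exact Or.inr (Set.mem_iUnion₂.2 ⟨b, hb, hd⟩)
  have h3 : ∑ᶠ U : Subgroup A, (Nat.card U : ℤ) ^ 2 * ∑ᶠ d : ℤ, altSum X p M χ d U =
      (Nat.card A : ℤ) * ∑ b ∈ R, aB p M b := by
    calc ∑ᶠ U : Subgroup A, (Nat.card U : ℤ) ^ 2 * ∑ᶠ d : ℤ, altSum X p M χ d U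
        = ∑ U : Subgroup A, (Nat.card U : ℤ) ^ 2 * ∑ d ∈ s, altSum X p M χ d U := by
          rw [finsum_eq_sum_of_fintype]
          exact Finset.sum_congr rfl fun U _ => by rw [h1 U]
      _ = ∑ U : Subgroup A, ∑ d ∈ s, (Nat.card U : ℤ) ^ 2 * altSum X p M χ d U :=
          Finset.sum_congr rfl fun U _ => Finset.mul_sum _ _ _
      _ = ∑ d ∈ s, ∑ U : Subgroup A, (Nat.card U : ℤ) ^ 2 * altSum X p M χ d U := Finset.sum_comm
      _ = ∑ d ∈ s, (Nat.card A : ℤ) * ∑ b ∈ R, altSum (trivE E) p M b d ⊤ := by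
          refine Finset.sum_congr rfl fun d _ => ?_
          rw [hR2 d, finsum_eq_sum_of_fintype]
      _ = (Nat.card A : ℤ) * ∑ b ∈ R, ∑ d ∈ s, altSum (trivE E) p M b d ⊤ := by
          rw [← Finset.mul_sum, Finset.sum_comm]
      _ = _ := by
          rw [Finset.sum_congr rfl fun b hb => (h2 b hb).symm]
  rw [h3]
  refine Dvd.dvd.mul_left (Finset.dvd_sum fun b hb => ?_) _
  exact hICV p M hS G E A X hpA hOp χ hχ hst D x hdef z hz hzc hzn b (hR1 b hb).1 (hR1 b hb).2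

end Pool.Agent.TZ
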