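import Pool.Agent.helper12.TZ.Spec

set_option autoImplicit false

namespace Pool.Agent.TZ

open Pool.Agent.helper58.DC Pool.Agent.DI Pool.Agent.GR Pool.Agent.OB

section

variable {G : Type} [Group G]

theorem TOG_HX (D : Subgroup G) (t y : G) (C : Finset (Subgroup G)) (d : G) :
    d ∈ HX D (t, y, C) ↔ d ∈ D ∧ d * t = t * d ∧ d ∈ nrm C := by
  unfold HX
  rw [Subgroup.mem_inf, Subgroup.mem_inf, Subgroup.mem_centralizer_singleton_iff]
  tauto

/-- an element of a finite group which maps a subgroup into itself normalises it -/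
theorem TOG_norm [Finite G] (y : G) (E : Subgroup G) (h : ∀ e ∈ E, y⁻¹ * e * y ∈ E) : y ∈ nz E := by
  rw [← Subgroup.inv_mem_iff, Subgroup.mem_normalizer_iff]
  intro e
  rw [inv_inv]
  constructor
  · exact h e
  · intro he
    -- the map is a bijection of `E`
    let f : E → E := fun x => ⟨y⁻¹ * x * y, h x x.2⟩
    have hf : Function.Injective f := by
      intro a b hab
      have h1 : y⁻¹ * (a : G) * y = y⁻¹ * b * y := congrArg (fun z : E => (z : G)) hab
      exact Subtype.ext (mul_left_cancel (mul_right_cancel h1))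
    obtain ⟨x, hx⟩ := (Finite.injective_iff_surjective.1 hf) ⟨y⁻¹ * e * y, he⟩
    have h1 : y⁻¹ * (x : G) * y = y⁻¹ * e * y := congrArg (fun z : E => (z : G)) hx
    have h2 : (x : G) = e := mul_left_cancel (mul_right_cancel h1)
    rw [← h2]
    exact x.2

end

theorem TOG_fin {T : Type} [Fintype T] [DecidableEq T] (q : T → Prop) [DecidablePred q] (w : T → ℤ) :
    ∑ᶠ C ∈ {C | q C}, w C = ∑ C ∈ Finset.univ.filter q, w C := by
  have h : {C | q C} = ((Finset.univ.filter q : Finset T) : Set T) := by
    ext C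
    simp
  rw [h]
  exact finsum_mem_coe_finset w _

theorem TOG (hCHF : CHF_stmt) (hEXI : EXI_stmt) (hFRE : FRE_stmt) (hRST : RST_stmt) (hMON : MON_stmt)
    (hSTB : STB_stmt) (hWCJ : WCJ_stmt) : TOG_stmt := by
  classical
  intro G _ _ p m _ g D hD hDg hpe t y
  have : Fintype (Finset (Subgroup G)) := Fintype.ofFinite _
  have : Fintype (Subgroup G) := Fintype.ofFinite _
  -- the facts about a triple
  have hHXD : ∀ C, HX D (t, y, C) ≤ D := fun C d hd => ((TOG_HX D t y C d).1 hd).1
  have hHXp : ∀ C, IsPGroup p (HX D (t, y, C)) := fun C => hD.to_le (hHXD C)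
  have hCm : ∀ C, Cm (t ^ m) (HX D (t, y, C)) := fun C d hd =>
    (Commute.pow_right (((TOG_HX D t y C d).1 hd).2.1 : Commute d t) m).eq
  set f : Finset (Subgroup G) → ℤ := fun C => (-1 : ℤ) ^ (C.card + 1) with hf
  -- the claim for sums over finsets
  have main : ∀ (n : ℕ) (U : Subgroup G), Nat.card G - Nat.card U ≤ n → U ⊓ Subgroup.zpowers (t ^ m) ≠ ⊥ →
      ∑ C ∈ Finset.univ.filter (fun C => (t, y, C) ∈ XX p g D ∧ UX m D (t, y, C) = U), f C = 0 := by
    intro n
    induction n with
    | zero => ?_
    | succ n ih => ?_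
    all_goals
      intro U hn hne
      by_cases hC0 : ∃ C₀, (t, y, C₀) ∈ XX p g D ∧ UX m D (t, y, C₀) = U
      swap
      · rw [Finset.filter_eq_empty_iff.2 (fun C _ h => hC0 ⟨C, h⟩), Finset.sum_empty]
      obtain ⟨C₀, hX0, hU0⟩ := hC0
      obtain ⟨-, ht0, hy0, hg0, hFr0⟩ := hX0
      have hU0' : Ui (t ^ m) y (HX D (t, y, C₀)) = U := hU0
      obtain ⟨-, hUH, hab, -⟩ := hSTB G (t ^ m) y (HX D (t, y, C₀)) (hCm C₀) hFr0
      rw [hU0'] at hUH
      have hUab : ∀ u ∈ U, ∀ v ∈ U, u * v = v * u := by
        intro u hu v hv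
        have hle : U ≤ Bi (t ^ m) y (HX D (t, y, C₀)) := by
          rw [← hU0']
          exact le_sup_left
        exact hab u (hle hu) v (hle hv)
      have hUD : ∀ u ∈ U, u ∈ D ∧ u * t = t * u := fun u hu =>
        ⟨((TOG_HX D t y C₀ u).1 (hUH hu)).1, ((TOG_HX D t y C₀ u).1 (hUH hu)).2.1⟩
      set K : Subgroup G := Subgroup.closure ({t, y, g} ∪ (U : Set G)) with hK
      set R : Subgroup G := D ⊓ Subgroup.centralizer {t} ⊓ Subgroup.centralizer {y} ⊓
        Subgroup.centralizer (U : Set G) with hR
      have hRmem : ∀ r, r ∈ R ↔ r ∈ D ∧ r * t = t * r ∧ r * y = y * r ∧ ∀ u ∈ U, r * u = u * r := by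
        intro r
        rw [hR, Subgroup.mem_inf, Subgroup.mem_inf, Subgroup.mem_inf, Subgroup.mem_centralizer_singleton_iff,
          Subgroup.mem_centralizer_singleton_iff, Subgroup.mem_centralizer_iff]
        constructor
        · rintro ⟨⟨⟨h1, h2⟩, h3⟩, h4⟩
          exact ⟨h1, h2, h3, fun u hu => (h4 u hu).symm⟩
        · rintro ⟨h1, h2, h3, h4⟩
          exact ⟨⟨⟨h1, h2⟩, h3⟩, fun u hu => (h4 u hu).symm⟩
      have hRK : ∀ r ∈ R, ∀ h ∈ K, r * h = h * r := by
        intro r hr
        obtain ⟨r1, r2, r3, r4⟩ := (hRmem r).1 hr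
        have hle : K ≤ Subgroup.centralizer {r} := by
          rw [hK, Subgroup.closure_le]
          intro x hx
          rw [SetLike.mem_coe, Subgroup.mem_centralizer_singleton_iff]
          rcases hx with hx | hx
          · rcases hx with rfl | rfl | rfl
            · exact r2.symm
            · exact r3.symm
            · exact (hDg r r1).symm
          · exact (r4 x hx).symm
        intro h hh
        exact (Subgroup.mem_centralizer_singleton_iff.1 (hle hh)).symm
      have hRp : IsPGroup p R := hD.to_le fun r hr => ((hRmem r).1 hr).1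
      have hKle : ∀ C, K ≤ nrm C ↔ t ∈ nrm C ∧ y ∈ nrm C ∧ g ∈ nrm C ∧ U ≤ nrm C := by
        intro C
        rw [hK, Subgroup.closure_le]
        constructor
        · intro h
          exact ⟨h (Or.inl (Or.inl rfl)), h (Or.inl (Or.inr (Or.inl rfl))), h (Or.inl (Or.inr (Or.inr rfl))),
            fun u hu => h (Or.inr hu)⟩
        · rintro ⟨h1, h2, h3, h4⟩ x hx
          rcases hx with hx | hx
          · rcases hx with rfl | rfl | rfl
            · exact h1
            · exact h2
            · exact h3
          · exact h4 hx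
      -- `W p K = 0`
      have hW : W p K = 0 := by
        obtain ⟨E, hEU, hEne, hEy⟩ := hEXI G p (t ^ m) y (HX D (t, y, C₀)) (hHXp C₀) (hCm C₀) hFr0 (hpe t)
          (by rw [hU0']; exact hne)
        rw [hU0'] at hEU
        refine (hWCJ G p).2.1 K E ((hHXp C₀).to_le (hEU.trans hUH)) ?_ ?_ hEne
        · intro e he
          exact Subgroup.subset_closure (Or.inr (hEU he))
        · have hcent : ∀ x : G, (∀ e ∈ E, x * e = e * x) → x ∈ nz E := by
            intro x hx
            refine TOG_norm x E fun e he => ?_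
            have : x⁻¹ * e * x = e := by
              rw [mul_assoc, ← hx e he]
              group
            rw [this]
            exact he
          rw [hK, Subgroup.closure_le]
          intro x hx
          rcases hx with hx | hx
          · rcases hx with rfl | rfl | rfl
            · exact hcent _ fun e he => ((hUD e (hEU he)).2).symm
            · exact TOG_norm _ E hEy
            · exact hcent _ fun e he => (hDg e (hUD e (hEU he)).1).symm
          · exact hcent _ fun e he => hUab x hx e (hEU he)
      have hsum := hCHF G p K R hRp hRK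
      rw [hW] at hsum
      -- the identification of the set
      have hset : {C : Finset (Subgroup G) | PCh p ⊤ ⊥ C ∧ K ≤ nrm C ∧ ∀ d ∈ R, d ∈ nrm C → d = 1} =
          {C | (t, y, C) ∈ XX p g D ∧ U ≤ UX m D (t, y, C)} := by
        ext C
        constructor
        · rintro ⟨hPC, hKC, hRC⟩
          obtain ⟨k1, k2, k3, k4⟩ := (hKle C).1 hKC
          have hUK' : U ≤ HX D (t, y, C) := fun u hu => (TOG_HX D t y C u).2 ⟨(hUD u hu).1, (hUD u hu).2, k4 hu⟩
          have hFr : Fr y (HX D (t, y, C)) := by
            intro d hd hdy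
            by_contra hd1
            obtain ⟨d', h1, h2, h3, h4⟩ := hFRE G p (t ^ m) y (HX D (t, y, C₀)) (HX D (t, y, C)) (hHXp C₀)
              (hHXp C) (hCm C₀) (hCm C) hFr0 (by rw [hU0']; exact hUK') 1 (Subgroup.one_mem _) d hd hd1
              (by rw [mul_one]; exact hdy)
            rw [mul_one] at h3
            rw [hU0'] at h4
            obtain ⟨e1, e2, e3⟩ := (TOG_HX D t y C d').1 h1
            exact h2 (hRC d' ((hRmem d').2 ⟨e1, e2, h3, h4⟩) e3)
          refine ⟨⟨hPC, k1, k2, k3, hFr⟩, ?_⟩
          have e1 : Ui (t ^ m) y U = U := by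
            rw [hRST G (t ^ m) y (HX D (t, y, C₀)) U hUH (by rw [hU0']), hU0']
          have e2 := hMON G (t ^ m) y U (HX D (t, y, C)) hUK' (hCm C) hFr
          rw [e1] at e2
          exact e2
        · rintro ⟨⟨hPC, k1, k2, k3, hFr⟩, hle⟩
          obtain ⟨-, hUH', -, -⟩ := hSTB G (t ^ m) y (HX D (t, y, C)) (hCm C) hFr
          have hUC : U ≤ nrm C := fun u hu => ((TOG_HX D t y C u).1 (hUH' (hle hu))).2.2
          refine ⟨hPC, (hKle C).2 ⟨k1, k2, k3, hUC⟩, fun d hd hdC => ?_⟩
          obtain ⟨r1, r2, r3, -⟩ := (hRmem d).1 hd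
          exact hFr d ((TOG_HX D t y C d).2 ⟨r1, r2, hdC⟩) r3
      rw [hset, TOG_fin] at hsum
      have hsplit : Finset.univ.filter (fun C => (t, y, C) ∈ XX p g D ∧ U ≤ UX m D (t, y, C)) =
          Finset.univ.filter (fun C => (t, y, C) ∈ XX p g D ∧ UX m D (t, y, C) = U) ∪
          Finset.univ.filter (fun C => (t, y, C) ∈ XX p g D ∧ U < UX m D (t, y, C)) := by
        ext C
        simp only [Finset.mem_filter, Finset.mem_univ, true_and, Finset.mem_union]
        constructor
        · rintro ⟨h1, h2⟩
          rcases h2.eq_or_lt with h3 | h3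
          · exact Or.inl ⟨h1, h3.symm⟩
          · exact Or.inr ⟨h1, h3⟩
        · rintro (⟨h1, h2⟩ | ⟨h1, h2⟩)
          · exact ⟨h1, h2.ge⟩
          · exact ⟨h1, h2.le⟩
      have hdisj : Disjoint (Finset.univ.filter (fun C => (t, y, C) ∈ XX p g D ∧ UX m D (t, y, C) = U))
          (Finset.univ.filter (fun C => (t, y, C) ∈ XX p g D ∧ U < UX m D (t, y, C))) := by
        rw [Finset.disjoint_filter]
        rintro C - ⟨-, h1⟩ ⟨-, h2⟩
        rw [h1] at h2
        exact lt_irrefl _ h2
      have hbig : ∑ C ∈ Finset.univ.filter (fun C => (t, y, C) ∈ XX p g D ∧ U < UX m D (t, y, C)), f C = 0 := by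
        rw [← Finset.sum_fiberwise_of_maps_to (t := Finset.univ.filter fun V : Subgroup G => U < V)
          (g := fun C => UX m D (t, y, C)) (fun C hC => by
            rw [Finset.mem_filter] at hC ⊢
            exact ⟨Finset.mem_univ _, hC.2.2⟩)]
        refine Finset.sum_eq_zero fun V hV => ?_
        have hUV : U < V := (Finset.mem_filter.1 hV).2
        have hcard : Nat.card U < Nat.card V := by
          refine lt_of_le_of_ne (Nat.card_mono (Set.toFinite _) hUV.le) fun h => ?_
          exact hUV.ne (Subgroup.eq_of_le_of_card_ge hUV.le h.ge)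
        have hVG : Nat.card V ≤ Nat.card G := Subgroup.card_le_card_group V
        have hfil : (Finset.univ.filter (fun C => (t, y, C) ∈ XX p g D ∧ U < UX m D (t, y, C))).filter
            (fun C => UX m D (t, y, C) = V) =
            Finset.univ.filter (fun C => (t, y, C) ∈ XX p g D ∧ UX m D (t, y, C) = V) := by
          ext C
          simp only [Finset.mem_filter, Finset.mem_univ, true_and]
          constructor
          · rintro ⟨⟨h1, -⟩, h2⟩
            exact ⟨h1, h2⟩
          · rintro ⟨h1, h2⟩
            exact ⟨⟨h1, by rw [h2]; exact hUV⟩, h2⟩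
        rw [hfil]
        first
          | (exfalso; omega)
          | (refine ih V (by omega) ?_
             intro h
             apply hne
             rw [eq_bot_iff, ← h]
             exact inf_le_inf_right _ hUV.le)
      have hsum' : ∑ C ∈ Finset.univ.filter (fun C => (t, y, C) ∈ XX p g D ∧ U ≤ UX m D (t, y, C)), f C = 0 := hsum
      rw [hsplit, Finset.sum_union hdisj, hbig, add_zero] at hsum'
      exact hsum'
  intro U hU
  have h1 := main _ U le_rfl hU
  rw [TOG_fin]
  exact h1

end Pool.Agent.TZ
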