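import Pool.Agent.helper12.TZ.Spec

set_option autoImplicit false

namespace Pool.Agent.TZ

open Pool.Agent.helper58.DC Pool.Agent.DI Pool.Agent.GR Pool.Agent.OB

theorem TRI_fr (hFRE : FRE_stmt) (hSTB : STB_stmt) (G : Type) [Group G] [Finite G] (p : ℕ) [Fact p.Prime]
    (s y : G) (H : Subgroup G) (hH : IsPGroup p H) (hC : Cm s H) (hFr : Fr y H) (b : G) (hb : b ∈ Bi s y H) :
    Fr (y * b) H := by
  intro h hh hy
  by_contra hne
  obtain ⟨-, hUH, -, -⟩ := hSTB G s y H hC hFr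
  obtain ⟨d, hd, hdne, hdy, hdU⟩ := hFRE G p s y H H hH hH hC hC hFr hUH b hb h hh hne hy
  have h1 : d * b = b * d := nx_comm hdU (hC d hd) b hb
  apply hdne
  apply hFr d hd
  have h2 : d * y * b = y * d * b := by
    calc d * y * b = d * (y * b) := by group
      _ = y * b * d := hdy
      _ = y * (b * d) := by group
      _ = y * (d * b) := by rw [h1]
      _ = y * d * b := by group
  exact mul_right_cancel h2

theorem TRI_le (hSTB : STB_stmt) (hCEN : CEN_stmt) (G : Type) [Group G] [Finite G]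
    (s y : G) (H : Subgroup G) (hC : Cm s H) (hFr : Fr y H) (b : G) (hb : b ∈ Bi s y H)
    (hFr' : Fr (y * b) H) : Ui s y H ≤ Ui s (y * b) H := by
  obtain ⟨-, hUH, hab, -⟩ := hSTB G s y H hC hFr
  have hle : ∀ j, Ul s y H j ≤ Ui s y H := fun j => le_iSup (Ul s y H) j
  have key : ∀ i, Ul s y H i ≤ Ul s (y * b) H i := by
    intro i
    induction i with
    | zero => exact le_rfl
    | succ i ih =>
      intro u hu
      have hu' : u ∈ H ∧ (∀ v ∈ Ul s y H i, u * v = v * u) ∧ u * s = s * u ∧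
        y⁻¹ * u * y * u⁻¹ ∈ Ul s y H i ⊔ Subgroup.zpowers s := hu
      obtain ⟨huH, -, -, hu3⟩ := hu'
      refine hCEN G s (y * b) H hC hFr' i u huH ?_
      set c := y⁻¹ * u * y * u⁻¹ with hc
      have hcB : c ∈ Bi s y H := (sup_le_sup_right (hle i) _) hu3
      have huB : u ∈ Bi s y H := (le_sup_left : Ui s y H ≤ Ui s y H ⊔ Subgroup.zpowers s) (hle (i + 1) hu)
      have e1 : (y * b)⁻¹ * u * (y * b) * u⁻¹ = c := by
        calc (y * b)⁻¹ * u * (y * b) * u⁻¹ = b⁻¹ * (y⁻¹ * u * y * u⁻¹) * (u * b) * u⁻¹ := by group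
          _ = b⁻¹ * c * (b * u) * u⁻¹ := by rw [← hc, hab u huB b hb]
          _ = b⁻¹ * (c * b) := by group
          _ = b⁻¹ * (b * c) := by rw [hab c hcB b hb]
          _ = c := by group
      rw [e1]
      exact (sup_le_sup_right ih _) hu3
  exact iSup_mono key

theorem TRI (hFRE : FRE_stmt) (hSTB : STB_stmt) (hCEN : CEN_stmt) : TRI_stmt := by
  intro G _ _ p _ s y H hH hC hFr b hb
  have h1 := TRI_fr hFRE hSTB G p s y H hH hC hFr b hb
  have h2 := TRI_le hSTB hCEN G s y H hC hFr b hb h1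
  refine ⟨h1, le_antisymm ?_ h2⟩
  have hb' : b ∈ Bi s (y * b) H := (sup_le_sup_right h2 _) hb
  have h3 := TRI_le hSTB hCEN G s (y * b) H hC h1 b⁻¹ (Subgroup.inv_mem _ hb')
  rw [mul_inv_cancel_right] at h3
  exact h3 hFr

end Pool.Agent.TZ
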